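import Mathlib
import Pool.Agent.H.MP_fc2771_gt.Main

set_option autoImplicit false

namespace Pool.Agent.Results.MP_4fc6a2_gt.Line

theorem result (H : AddSubgroup ℝ) (hH : Dense (H : Set ℝ))
    (h : MeasureTheory.AnalyticSet (H : Set ℝ)) :
    ∃ f : H → H, f.Bijective ∧ (∀ x y, dist (f x) (f y) ≤ dist x y) ∧
      ¬ ∀ x y, dist (f x) (f y) = dist x y :=
  Pool.Agent.H.MP_fc2771_gt.analytic hH h

end Pool.Agent.Results.MP_4fc6a2_gt.Line
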